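import Mathlib

namespace Pool.Agent.H.MP_362855_co

open Finset

theorem sum_wt {G ι : Type*} [AddCommGroup G] [Fintype G] [Fintype ι] (K : ι → AddSubgroup G)
    (H : AddSubgroup G) [DecidablePred (· ∈ H)] [∀ i, DecidablePred (· ∈ K i)] :
    ∑ x ∈ univ.filter (· ∈ H), ((univ.filter (fun i => x ∉ K i)).card : ℤ)
      = ∑ i, ((Nat.card H : ℤ) - Nat.card (H ⊓ K i : AddSubgroup G)) := by
  classical
  simp_rw [card_filter]
  push_cast
  rw [sum_comm]
  refine sum_congr rfl fun i _ => ?_
  have h1 : Nat.card H = (univ.filter (· ∈ H)).card := by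
    rw [Nat.card_eq_fintype_card, Fintype.card_subtype]
  have h2 : Nat.card (H ⊓ K i : AddSubgroup G) = ((univ.filter (· ∈ H)).filter (· ∈ K i)).card := by
    rw [Nat.card_eq_fintype_card, Fintype.card_subtype, filter_filter]
    congr 1
    ext x
    simp [AddSubgroup.mem_inf]
  have h3 := card_filter_add_card_filter_not (s := univ.filter (· ∈ H)) (fun x => x ∈ K i)
  rw [h1, h2, sum_boole]
  omega

theorem group_bound {G ι : Type*} [AddCommGroup G] [Fintype G] [Fintype ι]
    (K : ι → AddSubgroup G) [∀ i, DecidablePred (· ∈ K i)] (ht : G → ℕ) (k b : ℕ) (hk : 1 ≤ k)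
    (hb : 2 ≤ b) (hw : ∀ x, ht x + ht (-x) = (univ.filter (fun i => x ∉ K i)).card)
    (h0 : ht 0 = 0) (h1 : ∀ x, x ≠ 0 → ht x = k ∨ ht x = 2 * k)
    (h2 : (univ.filter (fun x => ht x = 2 * k)).card = b) :
    Fintype.card G ≤ (4 * b + 4) * k := by
  classical
  obtain ⟨N, hN⟩ : ∃ N, N = Fintype.card G := ⟨_, rfl⟩
  have hNpos : 0 < N := hN ▸ Fintype.card_pos
  have s1 : ∑ x, (ht x : ℤ) = k * (N - 1 + b) := by
    have : ∀ x, (ht x : ℤ) = k * ((1 - if x = 0 then 1 else 0) + if ht x = 2 * k then 1 else 0) := by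
      intro x
      by_cases hx : x = 0
      · subst hx
        rw [h0, if_pos rfl, if_neg (by omega)]
        simp
      · rcases h1 x hx with h | h
        · rw [if_neg hx, if_neg (by omega), h]; simp
        · rw [if_neg hx, if_pos h, h]; push_cast; ring
    rw [sum_congr rfl fun x _ => this x, ← mul_sum, sum_add_distrib, sum_sub_distrib,
      sum_ite_eq' univ (0 : G), sum_boole, h2, hN]
    simp
  have s2 : ∑ i, ((N : ℤ) - Nat.card (K i)) = 2 * k * (N - 1 + b) := by
    have e := sum_wt K ⊤
    rw [AddSubgroup.card_top, Nat.card_eq_fintype_card (α := G), ← hN] at e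
    simp only [AddSubgroup.mem_top, filter_true, top_inf_eq, ← hw] at e
    rw [← e]
    push_cast
    have e2 := Equiv.sum_comp (Equiv.neg G) (fun x => (ht x : ℤ))
    simp only [Equiv.neg_apply] at e2
    rw [sum_add_distrib, e2, s1]
    ring
  have hq : ∀ i, Nat.card (K i) * (K i).index = N := fun i => by
    rw [AddSubgroup.card_mul_index, Nat.card_eq_fintype_card, hN]
  rw [← hN]
  by_cases hc : ∃ i, 2 ≤ (K i).index ∧ (K i).index ≤ b + 1
  · obtain ⟨i, hi1, hi2⟩ := hc
    obtain ⟨m, hm⟩ : ∃ m, m = (K i).index := ⟨_, rfl⟩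
    obtain ⟨q, hq'⟩ : ∃ q, q = Nat.card (K i) := ⟨_, rfl⟩
    have e := sum_wt K (K i)
    have lo : 2 * (k : ℤ) * (q - 1) ≤
        ∑ x ∈ univ.filter (· ∈ K i), ((univ.filter (fun i => x ∉ K i)).card : ℤ) := by
      have hcard : q = (univ.filter (· ∈ K i)).card := by
        rw [hq', Nat.card_eq_fintype_card, Fintype.card_subtype]
      have : ∑ x ∈ univ.filter (· ∈ K i), (2 * (k : ℤ) * (1 - if x = 0 then 1 else 0))
          = 2 * (k : ℤ) * (q - 1) := by
        rw [← mul_sum, sum_sub_distrib, sum_ite_eq' _ (0 : G), hcard]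
        simp [(K i).zero_mem]
      rw [← this]
      refine sum_le_sum fun x _ => ?_
      rw [← hw]
      by_cases hx : x = 0
      · simp [hx]
      · have a1 := h1 x hx
        have a2 := h1 (-x) (neg_ne_zero.2 hx)
        rw [if_neg hx]
        push_cast
        omega
    have up : ∀ j, (m : ℤ) * ((Nat.card (K i) : ℤ) - Nat.card (K i ⊓ K j : AddSubgroup G))
        ≤ ((N : ℤ) - Nat.card (K j)) - if j = i then (N : ℤ) - q else 0 := by
      intro j
      split_ifs with h
      · subst h
        rw [inf_idem, hq']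
        simp
      · have a1 := AddSubgroup.index_inf_le (H := K i) (K := K j)
        have a2 := AddSubgroup.card_mul_index (K i ⊓ K j)
        rw [Nat.card_eq_fintype_card (α := G), ← hN] at a2
        have a3 := hq i
        have a4 := hq j
        have a5 : 0 < (K j).index := Nat.pos_of_mul_pos_left (a4 ▸ hNpos)
        have a6 : Nat.card (K j) ≤ m * Nat.card (K i ⊓ K j : AddSubgroup G) := by
          refine Nat.le_of_mul_le_mul_right ?_ a5
          rw [a4, ← a2, hm]
          calc _ ≤ Nat.card (K i ⊓ K j : AddSubgroup G) * ((K i).index * (K j).index) :=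
                Nat.mul_le_mul_left _ a1
            _ = _ := by ring
        rw [← hm] at a3
        zify at a3 a6
        linarith
    have up2 := sum_le_sum (s := univ) fun j _ => up j
    rw [← mul_sum, ← e, sum_sub_distrib, s2, sum_ite_eq' univ i, if_pos (mem_univ _)] at up2
    have a3 := hq i
    rw [← hm, ← hq'] at a3
    rw [← hm] at hi1 hi2
    have a7 := mul_le_mul_of_nonneg_left lo (Nat.cast_nonneg (α := ℤ) m)
    have a8 := a7.trans up2
    rw [← a3] at a8 ⊢
    push_cast at a8
    zify at hi1 hi2 hk ⊢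
    have a9 : (q : ℤ) * (m - 1) ≤ 2 * k * (m + b - 1) := by linarith
    have a10 : (0 : ℤ) ≤ k * ((m - 2) * (b + 1 - m)) := by
      have : (0 : ℤ) ≤ (m - 2) * (b + 1 - m) := mul_nonneg (by linarith) (by linarith)
      positivity
    refine le_of_mul_le_mul_right ?_ (show (0 : ℤ) < m - 1 by linarith)
    have a11 := mul_le_mul_of_nonneg_left a9 (Nat.cast_nonneg (α := ℤ) m)
    nlinarith
  · push Not at hc
    obtain ⟨x, hx⟩ : (univ.filter (fun x => ht x = 2 * k)).Nonempty := card_pos.1 (by omega)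
    have hx' := (mem_filter.1 hx).2
    have hx0 : x ≠ 0 := fun h => by rw [h, h0] at hx'; omega
    have a1 := h1 (-x) (neg_ne_zero.2 hx0)
    have a2 := hw x
    have lo : ∀ j, ((b : ℤ) + 1) * N * (if x ∉ K j then 1 else 0)
        ≤ (b + 2) * ((N : ℤ) - Nat.card (K j)) := by
      intro j
      have a4 := hq j
      have a5 : 0 < (K j).index := Nat.pos_of_mul_pos_left (a4 ▸ hNpos)
      split_ifs with h
      · have : Nat.card (K j) ≤ N := a4 ▸ Nat.le_mul_of_pos_right _ a5
        zify at this
        nlinarith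
      · have a6 : (K j).index ≠ 1 := fun h' => h (by
          rw [AddSubgroup.index_eq_one.1 h']; trivial)
        have a7 := hc j (by omega)
        have : Nat.card (K j) * (b + 2) ≤ N := a4 ▸ Nat.mul_le_mul_left _ a7
        zify at this
        nlinarith
    have lo2 := sum_le_sum (s := univ) fun j _ => lo j
    rw [← mul_sum, ← mul_sum, s2, sum_boole, ← a2] at lo2
    have a3 : 3 * (k : ℤ) ≤ ((ht x + ht (-x) : ℕ) : ℤ) := by push_cast; omega
    have a4 := (mul_le_mul_of_nonneg_left a3 (show (0 : ℤ) ≤ (b + 1) * N by positivity)).trans lo2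
    zify at hk hb ⊢
    have a5 : ((b : ℤ) + 1) * N * 3 ≤ (b + 2) * (2 * (N - 1 + b)) := by
      refine le_of_mul_le_mul_right ?_ (show (0 : ℤ) < k by linarith)
      nlinarith
    have a6 : (N : ℤ) ≤ 2 * (b + 2) := by
      refine le_of_mul_le_mul_right ?_ (show (0 : ℤ) < b - 1 by linarith)
      nlinarith
    nlinarith

end Pool.Agent.H.MP_362855_co
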