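import Pool.Agent.H.MP_362855_co.A

namespace Pool.Agent.H.MP_362855_co

open Finset Pointwise

/-- representative in the unit interval -/
noncomputable def rep (x : UnitAddCircle) : ℝ := (AddCircle.equivIco 1 0 x : ℝ)

theorem rep_coe (a : ℝ) : rep (a : UnitAddCircle) = Int.fract a := by
  unfold rep
  rw [AddCircle.coe_equivIco_mk_apply]
  simp

theorem rep_inj : Function.Injective rep := fun _ _ h =>
  (AddCircle.equivIco 1 0).injective (Subtype.ext h)

open Classical in
theorem rep_add_neg (x : UnitAddCircle) : rep x + rep (-x) = if x = 0 then 0 else 1 := by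
  split_ifs with h
  · subst h
    have := rep_coe 0
    simp only [QuotientAddGroup.mk_zero, Int.fract_zero] at this
    simp [this]
  · induction x using QuotientAddGroup.induction_on with
    | H a =>
      rw [← QuotientAddGroup.mk_neg, rep_coe, rep_coe, Int.fract_neg]
      · ring
      · intro h'
        apply h
        apply rep_inj
        rw [rep_coe, h', ← QuotientAddGroup.mk_zero, rep_coe, Int.fract_zero]

theorem finite_pts {d : ℕ} (K : Set (Fin d → ℝ)) (hK : Bornology.IsBounded K) :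
    {z : Fin d → ℤ | (fun i => (z i : ℝ)) ∈ K}.Finite := by
  obtain ⟨R, hR⟩ := hK.exists_norm_le
  refine (Set.Finite.pi' (fun _ : Fin d => Set.finite_Icc (-⌈R⌉) ⌈R⌉)).subset fun z hz i => ?_
  have h := abs_le.1 ((norm_le_pi_norm _ i).trans (hR _ hz))
  have h2 := Int.le_ceil R
  constructor
  · have : ((-⌈R⌉ : ℤ) : ℝ) ≤ z i := by push_cast; linarith
    exact_mod_cast this
  · have : (z i : ℝ) ≤ (⌈R⌉ : ℤ) := by linarith
    exact_mod_cast this

theorem mem_dil {ι E : Type*} [Fintype ι] [Nonempty ι] [AddCommGroup E] [Module ℝ E] (v : ι → E)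
    (m : ℝ) (hm : 0 ≤ m) (y : E) : y ∈ m • convexHull ℝ (Set.range v) ↔
      ∃ w : ι → ℝ, (∀ i, 0 ≤ w i) ∧ ∑ i, w i = m ∧ ∑ i, w i • v i = y := by
  classical
  constructor
  · rintro ⟨r, hr, rfl⟩
    obtain ⟨w, h1, h2, h3⟩ : ∃ w : ι → ℝ, (∀ i, 0 ≤ w i) ∧ ∑ i, w i = 1 ∧ ∑ i, w i • v i = r := by
      refine convexHull_min (t := {r | ∃ w : ι → ℝ, (∀ i, 0 ≤ w i) ∧ ∑ i, w i = 1 ∧
        ∑ i, w i • v i = r}) ?_ ?_ hr
      · rintro _ ⟨i, rfl⟩
        refine ⟨Pi.single i 1, fun j => ?_, by simp, ?_⟩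
        · by_cases h : j = i <;> simp [h]
        · simp [Pi.single_apply]
      · rintro _ ⟨w, w1, w2, rfl⟩ _ ⟨u, u1, u2, rfl⟩ a b ha hb hab
        refine ⟨fun i => a * w i + b * u i, fun i => ?_, ?_, ?_⟩
        · have := w1 i
          have := u1 i
          positivity
        · rw [sum_add_distrib, ← mul_sum, ← mul_sum, w2, u2]; linarith
        · simp only [add_smul, mul_smul, sum_add_distrib, smul_sum]
    refine ⟨fun i => m * w i, fun i => mul_nonneg hm (h1 i), by rw [← mul_sum, h2, mul_one], ?_⟩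
    simp only [mul_smul, ← smul_sum, h3]
  · rintro ⟨w, h1, h2, rfl⟩
    rcases hm.eq_or_lt with h | h
    · have : ∀ i, w i = 0 := fun i =>
        (sum_eq_zero_iff_of_nonneg (fun i _ => h1 i)).1 (h2.trans h.symm) i (mem_univ _)
      obtain ⟨i⟩ := ‹Nonempty ι›
      exact ⟨v i, subset_convexHull ℝ _ ⟨i, rfl⟩, by simp [this, ← h]⟩
    · refine ⟨∑ i, (m⁻¹ * w i) • v i, (convex_convexHull ℝ _).sum_mem
        (fun i _ => mul_nonneg (inv_pos.2 h).le (h1 i)) ?_
        (fun i _ => subset_convexHull ℝ _ ⟨i, rfl⟩), ?_⟩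
      · rw [← mul_sum, h2, inv_mul_cancel₀ h.ne']
      · simp only [smul_sum, smul_smul, ← mul_assoc, mul_inv_cancel₀ h.ne', one_mul]

/-- weight vectors giving integer points -/
def G0 {ι : Type*} [Fintype ι] {d : ℕ} (v : ι → Fin d → ℤ) : AddSubgroup (ι → ℝ) where
  carrier := {w | (∃ z : ℤ, ∑ i, w i = z) ∧ ∀ j, ∃ z : ℤ, ∑ i, w i * v i j = z}
  zero_mem' := ⟨⟨0, by simp⟩, fun _ => ⟨0, by simp⟩⟩
  add_mem' := by
    rintro a b ⟨⟨z, hz⟩, ha⟩ ⟨⟨y, hy⟩, hb⟩
    refine ⟨⟨z + y, by simp [sum_add_distrib, hz, hy]⟩, fun j => ?_⟩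
    obtain ⟨z, hz⟩ := ha j
    obtain ⟨y, hy⟩ := hb j
    exact ⟨z + y, by simp [add_mul, sum_add_distrib, hz, hy]⟩
  neg_mem' := by
    rintro a ⟨⟨z, hz⟩, ha⟩
    refine ⟨⟨-z, by simp [hz]⟩, fun j => ?_⟩
    obtain ⟨z, hz⟩ := ha j
    exact ⟨-z, by simp [hz]⟩

theorem int_mem {ι : Type*} [Fintype ι] {d : ℕ} (v : ι → Fin d → ℤ) (n : ι → ℤ) :
    (fun i => (n i : ℝ)) ∈ G0 v :=
  ⟨⟨∑ i, n i, by simp⟩, fun j => ⟨∑ i, n i * v i j, by simp⟩⟩

/-- the box group -/
noncomputable def Lam {ι : Type*} [Fintype ι] {d : ℕ} (v : ι → Fin d → ℤ) :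
    AddSubgroup (ι → UnitAddCircle) :=
  (G0 v).map ((QuotientAddGroup.mk' _).compLeft ι)

theorem rep_mem {ι : Type*} [Fintype ι] {d : ℕ} (v : ι → Fin d → ℤ) (x : Lam v) :
    (fun i => rep (x.1 i)) ∈ G0 v := by
  obtain ⟨_, w, hw, rfl⟩ := x
  have := (G0 v).sub_mem hw (int_mem v (fun i => ⌊w i⌋))
  convert this using 1
  funext i
  exact rep_coe (w i)

theorem rep_nonneg (x : UnitAddCircle) : 0 ≤ rep x := (AddCircle.equivIco 1 0 x).2.1

theorem rep_lt (x : UnitAddCircle) : rep x < 1 := by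
  exact (AddCircle.equivIco 1 0 x).2.2.trans_eq (zero_add 1)

/-- height -/
noncomputable def ht {ι : Type*} [Fintype ι] {d : ℕ} (v : ι → Fin d → ℤ) (x : Lam v) : ℕ :=
  ⌊∑ i, rep (x.1 i)⌋₊

theorem ht_cast {ι : Type*} [Fintype ι] {d : ℕ} (v : ι → Fin d → ℤ) (x : Lam v) :
    (ht v x : ℝ) = ∑ i, rep (x.1 i) := by
  obtain ⟨z, hz⟩ := (rep_mem v x).1
  have h0 : (0 : ℝ) ≤ z := hz ▸ sum_nonneg fun i _ => rep_nonneg _
  obtain ⟨n, rfl⟩ := Int.eq_ofNat_of_zero_le (show 0 ≤ z by exact_mod_cast h0)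
  unfold ht
  rw [hz]
  simp

theorem count {ι : Type*} [Fintype ι] [Nonempty ι] [DecidableEq ι] {d : ℕ} (v : ι → Fin d → ℤ)
    (hv : ∀ w : ι → ℝ, ∑ i, w i = 0 → (∀ j, ∑ i, w i * v i j = 0) → ∀ i, w i = 0) (m : ℕ) :
    Set.BijOn (fun p : (_ : Lam v) × (ι →₀ ℕ) => fun j => ⌊∑ i, (rep (p.1.1 i) + p.2 i) * v i j⌋)
      {p | ht v p.1 + ∑ i, p.2 i = m}
      {z : Fin d → ℤ | (fun i => (z i : ℝ)) ∈
        (m : ℝ) • convexHull ℝ (Set.range (fun i j => (v i j : ℝ)))} := by
  have cast : ∀ (p : (_ : Lam v) × (ι →₀ ℕ)) j,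
      ((⌊∑ i, (rep (p.1.1 i) + p.2 i) * v i j⌋ : ℤ) : ℝ) = ∑ i, (rep (p.1.1 i) + p.2 i) * v i j := by
    intro p j
    obtain ⟨z, hz⟩ := ((G0 v).add_mem (rep_mem v p.1) (int_mem v (fun i => p.2 i))).2 j
    simp only [Pi.add_apply, Int.cast_natCast] at hz
    rw [hz, Int.floor_intCast]
  have sm : ∀ p : (_ : Lam v) × (ι →₀ ℕ), ht v p.1 + ∑ i, p.2 i = m →
      ∑ i, (rep (p.1.1 i) + p.2 i) = m := by
    intro p hp
    rw [sum_add_distrib, ← ht_cast, ← hp]
    push_cast
    rfl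
  refine ⟨fun p hp => ?_, fun p hp q hq e => ?_, fun z hz => ?_⟩
  · rw [Set.mem_ofPred_eq, mem_dil _ _ (Nat.cast_nonneg m)]
    refine ⟨fun i => rep (p.1.1 i) + p.2 i, fun i => add_nonneg (rep_nonneg _) (Nat.cast_nonneg _),
      sm p hp, ?_⟩
    funext j
    rw [cast]
    simp [Finset.sum_apply]
  · have := hv (fun i => (rep (p.1.1 i) + p.2 i) - (rep (q.1.1 i) + q.2 i))
      (by rw [sum_sub_distrib, sm p hp, sm q hq, sub_self]) (fun j => by
        simp only [sub_mul, sum_sub_distrib]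
        have ej := congrFun e j
        beta_reduce at ej
        rw [← cast p, ← cast q, ej, sub_self])
    have h2 : ∀ i, p.2 i = q.2 i := by
      intro i
      have a0 := this i
      have a1 := rep_nonneg (p.1.1 i)
      have a2 := rep_nonneg (q.1.1 i)
      have a3 := rep_lt (p.1.1 i)
      have a4 := rep_lt (q.1.1 i)
      have b1 : (p.2 i : ℝ) < q.2 i + 1 := by linarith
      have b2 : (q.2 i : ℝ) < p.2 i + 1 := by linarith
      have c1 : p.2 i < q.2 i + 1 := by exact_mod_cast b1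
      have c2 : q.2 i < p.2 i + 1 := by exact_mod_cast b2
      omega
    obtain ⟨x, n⟩ := p
    obtain ⟨y, n'⟩ := q
    have h3 : x = y := Subtype.ext (funext fun i => rep_inj (by
      have a0 := this i
      have a1 := h2 i
      simp only at a0 a1
      rw [a1] at a0
      linarith))
    have h4 : n = n' := Finsupp.ext h2
    rw [h3, h4]
  · rw [Set.mem_ofPred_eq, mem_dil _ _ (Nat.cast_nonneg m)] at hz
    obtain ⟨w, w1, w2, w3⟩ := hz
    have w4 : ∀ j, ∑ i, w i * v i j = z j := fun j => by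
      simpa [Finset.sum_apply] using congrFun w3 j
    have hw : w ∈ G0 v := ⟨⟨m, by simpa using w2⟩, fun j => ⟨z j, w4 j⟩⟩
    have key : ∀ i, rep (w i : UnitAddCircle) + (⌊w i⌋₊ : ℝ) = w i := by
      intro i
      rw [rep_coe, natCast_floor_eq_intCast_floor (w1 i), Int.fract_add_floor]
    refine ⟨⟨⟨fun i => (w i : UnitAddCircle), w, hw, rfl⟩, Finsupp.equivFunOnFinite.symm
      (fun i => ⌊w i⌋₊)⟩, ?_, ?_⟩
    · have : ((ht v ⟨fun i => (w i : UnitAddCircle), w, hw, rfl⟩ + ∑ i, ⌊w i⌋₊ : ℕ) : ℝ) = m := by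
        push_cast
        rw [ht_cast, ← sum_add_distrib, ← w2]
        exact sum_congr rfl fun i _ => key i
      simp only [Set.mem_ofPred_eq, Finsupp.equivFunOnFinite_symm_apply_apply]
      exact_mod_cast this
    · funext j
      simp only [Finsupp.equivFunOnFinite_symm_apply_apply, key, w4, Int.floor_intCast]

theorem simplex_bound {ι : Type*} [Fintype ι] [Nonempty ι] {d : ℕ} (v : ι → Fin d → ℤ)
    (hv : ∀ w : ι → ℝ, ∑ i, w i = 0 → (∀ j, ∑ i, w i * v i j = 0) → ∀ i, w i = 0)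
    (k a b : ℕ) (hk : 1 ≤ k) (hb : 2 ≤ b)
    (h : (1 - PowerSeries.X) ^ (Fintype.card ι) * PowerSeries.mk (fun m : ℕ =>
      (Set.ncard {z : Fin d → ℤ | (fun i => (z i : ℝ)) ∈
        (m : ℝ) • convexHull ℝ (Set.range (fun i j => (v i j : ℝ)))} : ℤ))
      = 1 + (a : PowerSeries ℤ) * PowerSeries.X ^ k + (b : PowerSeries ℤ) * PowerSeries.X ^ (2 * k)) :
    a + b + 1 ≤ (4 * b + 4) * k := by
  classical
  have fin : ∀ m : ℕ, {p : (_ : Lam v) × (ι →₀ ℕ) | ht v p.1 + ∑ i, p.2 i = m}.Finite := by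
    intro m
    refine Set.Finite.of_finite_image ?_ (count v hv m).injOn
    rw [(count v hv m).image_eq]
    exact finite_pts _ ((isBounded_convexHull.2 (Set.finite_range _).isBounded).smul₀ _)
  have hle : ∀ x : Lam v, ht v x ≤ Fintype.card ι := by
    intro x
    have : (ht v x : ℝ) ≤ Fintype.card ι := by
      rw [ht_cast]
      calc ∑ i, rep (x.1 i) ≤ ∑ _i : ι, (1 : ℝ) := sum_le_sum fun i _ => (rep_lt _).le
        _ = _ := by simp
    exact_mod_cast this
  have : Finite (Lam v) := by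
    rw [← Set.finite_univ_iff]
    refine ((Set.finite_Iic (Fintype.card ι)).biUnion fun m _ =>
      (fin m).image Sigma.fst).subset fun x _ => ?_
    simp only [Set.mem_iUnion]
    exact ⟨ht v x, hle x, ⟨x, 0⟩, by simp, rfl⟩
  have := Fintype.ofFinite (Lam v)
  have gf : PowerSeries.mk (fun m : ℕ => (Set.ncard {z : Fin d → ℤ | (fun i => (z i : ℝ)) ∈
        (m : ℝ) • convexHull ℝ (Set.range (fun i j => (v i j : ℝ)))} : ℤ))
      = ∑ x : Lam v, PowerSeries.X ^ ht v x * ∏ _i : ι, PowerSeries.mk 1 := by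
    ext m
    rw [PowerSeries.coeff_mk, ← (count v hv m).ncard_eq, map_sum]
    have e : {p : (_ : Lam v) × (ι →₀ ℕ) | ht v p.1 + ∑ i, p.2 i = m}
        = ((univ.sigma (fun x : Lam v => if ht v x ≤ m then finsuppAntidiag (univ : Finset ι)
          (m - ht v x) else ∅) : Finset _) : Set _) := by
      ext p
      simp only [Set.mem_ofPred_eq, mem_coe, mem_sigma, mem_univ, true_and]
      split_ifs with h
      · simp only [mem_finsuppAntidiag, subset_univ, and_true]
        change _ ↔ ∑ i, p.2 i = _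
        omega
      · simp only [notMem_empty, iff_false]
        omega
    rw [e, Set.ncard_coe_finset, card_sigma]
    push_cast
    refine sum_congr rfl fun x _ => ?_
    rw [PowerSeries.coeff_X_pow_mul', PowerSeries.coeff_prod]
    split_ifs <;> simp
  have gf2 : (∑ x : Lam v, PowerSeries.X ^ ht v x : PowerSeries ℤ)
      = 1 + (a : PowerSeries ℤ) * PowerSeries.X ^ k + (b : PowerSeries ℤ) * PowerSeries.X ^ (2 * k) := by
    rw [← h, gf, ← sum_mul, prod_const, card_univ, mul_left_comm, ← mul_pow,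
      mul_comm (1 - PowerSeries.X), PowerSeries.mk_one_mul_one_sub_eq_one, one_pow, mul_one]
  have co : ∀ j, ((univ.filter (fun x : Lam v => ht v x = j)).card : ℤ)
      = (if j = 0 then 1 else 0) + a * (if j = k then 1 else 0) + b * (if j = 2 * k then 1 else 0) := by
    intro j
    have := congrArg (PowerSeries.coeff j) gf2
    rw [map_sum, map_add, map_add, ← nsmul_eq_mul, ← nsmul_eq_mul, map_nsmul, map_nsmul,
      PowerSeries.coeff_one] at this
    simp only [PowerSeries.coeff_X_pow, nsmul_eq_mul] at this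
    rw [← this, card_filter]
    push_cast
    exact sum_congr rfl fun x _ => if_congr eq_comm rfl rfl
  have c0 := co 0
  have c1 := co k
  have c2 := co (2 * k)
  rw [if_pos rfl, if_neg (by omega), if_neg (by omega)] at c0
  rw [if_neg (by omega), if_pos rfl, if_neg (by omega)] at c1
  rw [if_neg (by omega), if_neg (by omega), if_pos rfl] at c2
  have r0 : rep 0 = 0 := by simpa using rep_coe 0
  have h0 : ht v 0 = 0 := by simp [ht, r0]
  have h3 : ∀ x, ht v x = 0 ∨ ht v x = k ∨ ht v x = 2 * k := by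
    intro x
    by_contra hc
    push Not at hc
    have := co (ht v x)
    rw [if_neg hc.1, if_neg hc.2.1, if_neg hc.2.2] at this
    have h4 : 0 < (univ.filter (fun y : Lam v => ht v y = ht v x)).card :=
      card_pos.2 ⟨x, by simp⟩
    omega
  have h1 : ∀ x, x ≠ 0 → ht v x = k ∨ ht v x = 2 * k := by
    intro x hx
    refine (h3 x).resolve_left fun h4 => hx ?_
    exact card_le_one.1 (show (univ.filter (fun y : Lam v => ht v y = 0)).card ≤ 1 by omega) x
      (by simp [h4]) 0 (by simp [h0])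
  have tot : (Fintype.card (Lam v) : ℤ) = 1 + a + b := by
    have : ∀ x : Lam v, (1 : ℤ) = (if ht v x = 0 then 1 else 0) + (if ht v x = k then 1 else 0)
        + (if ht v x = 2 * k then 1 else 0) := by
      intro x
      have := h3 x
      split_ifs <;> omega
    have e := sum_congr (rfl : (univ : Finset (Lam v)) = univ) fun x _ => this x
    rw [sum_add_distrib, sum_add_distrib, sum_boole, sum_boole, sum_boole] at e
    simp only [sum_const, card_univ, nsmul_eq_mul, mul_one] at e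
    omega
  have := group_bound (G := Lam v) (fun i => ((Pi.evalAddMonoidHom (fun _ : ι => UnitAddCircle) i).comp
    (Lam v).subtype).ker) (ht v) k b hk hb (fun x => ?_) h0 h1 (by omega)
  · omega
  · have e : ((ht v x + ht v (-x) : ℕ) : ℝ) = ∑ i, if x.1 i = 0 then 0 else 1 := by
      push_cast
      rw [ht_cast, ht_cast, ← sum_add_distrib]
      exact sum_congr rfl fun i _ => rep_add_neg (x.1 i)
    rw [← Nat.cast_inj (R := ℝ), e, card_filter]
    push_cast
    refine sum_congr rfl fun i _ => ?_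
    by_cases hx : x.1 i = 0
    · simp [hx]
    · simp [hx]

end Pool.Agent.H.MP_362855_co
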